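import Pool.Agent.Y76.RDX.Fin

set_option autoImplicit false

/-!
# Every domain embeds in an RD domain that is not Ore

No restriction on the cardinality of the domain `R` and no ground field is needed, and the centre of
`R` is mapped into the centre of the RD domain `S` (so if `R` is an algebra over a field `k`, then `S`
is a `k`-algebra and the embedding is `k`-linear). Moreover `S ^ 2 ≅ S ^ 3` as modules, so `S` does not
embed in any division ring, nor in any nonzero ring with invariant basis number.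
-/

namespace Pool.Agent.Results.MP_b17c42_al.EveryDomainEmbeds

open MulOpposite

universe u

/-- `N ≤ M` (right modules) is pure: every finite system of `R`-linear equations
`∑_i x_i a_{ij} = y_j` with parameters `y_j ∈ N` that has a solution in `M` has one in `N`. -/
def Pure (R : Type u) [Ring R] {M : Type u} [AddCommGroup M] [Module Rᵐᵒᵖ M]
    (N : Submodule Rᵐᵒᵖ M) : Prop :=
  ∀ (m n : ℕ) (A : Matrix (Fin m) (Fin n) R) (y : Fin n → M), (∀ j, y j ∈ N) →
    (∃ x : Fin m → M, ∀ j, ∑ i, op (A i j) • x i = y j) →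
    ∃ x : Fin m → M, (∀ i, x i ∈ N) ∧ ∀ j, ∑ i, op (A i j) • x i = y j

/-- `N ≤ M` (right modules) is relatively divisible: `N ∩ M r = N r` for every `r ∈ R`. -/
def RDPure (R : Type u) [Ring R] {M : Type u} [AddCommGroup M] [Module Rᵐᵒᵖ M]
    (N : Submodule Rᵐᵒᵖ M) : Prop :=
  ∀ (r : R) (x : M), op r • x ∈ N → ∃ x' ∈ N, op r • x' = op r • x

/-- `R` is an RD ring: for right modules, every RD-pure submodule is pure. -/
def IsRD (R : Type u) [Ring R] : Prop :=
  ∀ (M : Type u) [AddCommGroup M] [Module Rᵐᵒᵖ M] (N : Submodule Rᵐᵒᵖ M), RDPure R N → Pure R N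

/-- `aR ∩ bR ≠ 0` for all nonzero `a, b` -/
def RightOre (R : Type u) [Ring R] : Prop :=
  ∀ a b : R, a ≠ 0 → b ≠ 0 → ∃ x y : R, a * x = b * y ∧ a * x ≠ 0

/-- `Ra ∩ Rb ≠ 0` for all nonzero `a, b` -/
def LeftOre (R : Type u) [Ring R] : Prop :=
  ∀ a b : R, a ≠ 0 → b ≠ 0 → ∃ x y : R, x * a = y * b ∧ x * a ≠ 0

theorem result (R : Type u) [Ring R] [IsDomain R] :
    ∃ (S : Type u) (_ : Ring S), IsDomain S ∧ IsRD S ∧ ¬ RightOre S ∧ ¬ LeftOre S ∧
      (∃ (P : Matrix (Fin 3) (Fin 2) S) (Q : Matrix (Fin 2) (Fin 3) S), P * Q = 1 ∧ Q * P = 1) ∧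
      ∃ φ : R →+* S, Function.Injective φ ∧ ∀ c ∈ Subring.center R, φ c ∈ Subring.center S := by
  obtain ⟨S, _, hd, φ, P, Q, hφ, hc, h1, h2, hA⟩ := Pool.Agent.Y76.RDX.main R
  exact ⟨S, inferInstance, hd,
    fun M _ _ N hN m n A y hy hx => Pool.Agent.Y76.RDX.rd_of_cert hA N hN m n A y hy hx,
    Pool.Agent.Y76.RDX.not_rightOre (by norm_num) P Q h1 h2,
    Pool.Agent.Y76.RDX.not_leftOre (by norm_num) P Q h1 h2, ⟨P, Q, h1, h2⟩, φ, hφ, hc⟩

end Pool.Agent.Results.MP_b17c42_al.EveryDomainEmbeds
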